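import Pool.Agent.Helper65.NW.Goals2

/-!
# Networks of processors: cones of the net of a cellular automaton
-/

namespace Pool.Agent.Helper33.NW

open Pool.Agent.Helper65.NW Pool.Agent.Helper65.LinSpace Pool.Agent.Helper78.Mpc
  Pool.Agent.Helper28.Ram Finset

/-- The displaced digits. -/
def dgt (D b : ℕ) (z : List Bool) (e : Fin D → ℤ) (j : ℕ) : ℕ :=
  if h : j < D then (((dig (2 ^ b) (bval z) j : ℤ) + e ⟨j, h⟩) % 2 ^ b).toNat else 0

/-- The cell which is displaced from `z` by `e`. -/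
def nbr (D b : ℕ) (z : List Bool) (e : Fin D → ℤ) : List Bool :=
  pad (D * b) (tab (2 ^ b) D (dgt D b z e)).bits

theorem dgt_lt (D b : ℕ) (z : List Bool) (e : Fin D → ℤ) (j : ℕ) : dgt D b z e j < 2 ^ b := by
  unfold dgt
  have hq : (0 : ℤ) < 2 ^ b := by positivity
  split_ifs with h
  · have h1 := Int.emod_nonneg ((dig (2 ^ b) (bval z) j : ℤ) + e ⟨j, h⟩) hq.ne'
    have h2 := Int.emod_lt_of_pos ((dig (2 ^ b) (bval z) j : ℤ) + e ⟨j, h⟩) hq
    zify
    rw [Int.toNat_of_nonneg h1]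
    exact h2
  · positivity

theorem length_pad_bits {L x : ℕ} (h : x < 2 ^ L) : (pad L x.bits).length = L := by
  rw [length_pad]
  exact max_eq_left (Pool.Agent.Helper78.Mpc.length_bits h)

theorem length_nbr (D b : ℕ) (z : List Bool) (e : Fin D → ℤ) :
    (nbr D b z e).length = D * b := by
  refine length_pad_bits ?_
  rw [mul_comm, pow_mul]
  exact tab_lt fun j _ => dgt_lt D b z e j

theorem dig_nbr (D b : ℕ) (z : List Bool) (e : Fin D → ℤ) (j : ℕ) (h : j < D) :
    (dig (2 ^ b) (bval (nbr D b z e)) j : ℤ) =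
      ((dig (2 ^ b) (bval z) j : ℤ) + e ⟨j, h⟩) % 2 ^ b := by
  have hq : (0 : ℤ) < 2 ^ b := by positivity
  rw [nbr, bval_pad, Pool.Agent.Helper31.TMS.bval_bits,
    dig_tab (fun j _ => dgt_lt D b z e j) h, dgt, dif_pos h]
  exact Int.toNat_of_nonneg (Int.emod_nonneg _ hq.ne')

theorem nbr_nbr (D b : ℕ) (z : List Bool) (e f : Fin D → ℤ) :
    nbr D b (nbr D b z e) f = nbr D b z (e + f) := by
  have h1 : tab (2 ^ b) D (dgt D b (nbr D b z e) f) = tab (2 ^ b) D (dgt D b z (e + f)) := by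
    unfold tab
    refine Finset.sum_congr rfl fun j hj => ?_
    have h := Finset.mem_range.1 hj
    rw [dgt, dgt, dif_pos h, dif_pos h, dig_nbr D b z e j h, Pi.add_apply, Int.emod_add_emod, add_assoc]
  rw [nbr, h1, nbr]

theorem nbr_zero (D b : ℕ) (z : List Bool) (hz : z.length = D * b) : nbr D b z 0 = z := by
  refine eq_of_bval (by rw [length_nbr, hz]) ?_
  rw [nbr, bval_pad, Pool.Agent.Helper31.TMS.bval_bits]
  have h1 : bval z < (2 ^ b) ^ D := by
    rw [← pow_mul, mul_comm b D, ← hz]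
    exact bval_lt z
  conv_rhs => rw [← tab_dig (bval z) D h1]
  unfold tab
  refine Finset.sum_congr rfl fun j hj => ?_
  have h := Finset.mem_range.1 hj
  rw [dgt, dif_pos h, Pi.zero_apply, add_zero]
  congr 1
  have h2 : dig (2 ^ b) (bval z) j < 2 ^ b := Nat.mod_lt _ (by positivity)
  rw [Int.emod_eq_of_lt (by positivity) (by exact_mod_cast h2)]
  rfl

/-- The box of radius `k`. -/
noncomputable def box (D k : ℕ) : Finset (Fin D → ℤ) := Fintype.piFinset fun _ => Finset.Icc (-(k : ℤ)) k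

theorem card_box (D k : ℕ) : (box D k).card = (2 * k + 1) ^ D := by
  rw [box, Fintype.card_piFinset]
  simp only [Int.card_Icc, Finset.prod_const, Finset.card_univ, Fintype.card_fin]
  congr 1
  omega

theorem anb_eq {D : ℕ} [NeZero D] (b n t i : ℕ) (z : List Bool) :
    anb D (hd n t (List.replicate (D * b) false) z ++ i.bits) =
      nbr D b z fun j => (dig 3 i j : ℤ) - 1 := by
  have hD : D * b / D = b := Nat.mul_div_cancel_left b (NeZero.pos D)
  rw [anb, hp_hd, hz_hd, hr_hd, List.length_replicate, hD, nbr,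
    Pool.Agent.Helper31.TMS.bval_bits]
  congr 2
  unfold tab
  refine Finset.sum_congr rfl fun j hj => ?_
  have h := Finset.mem_range.1 hj
  rw [dgt, dif_pos h]
  congr 1
  have hq : 0 < 2 ^ b := by positivity
  have h2 : ((dig (2 ^ b) (bval z) j : ℤ) + ((dig 3 i j : ℤ) - 1)) % 2 ^ b =
      ((dig (2 ^ b) (bval z) j + dig 3 i j + 2 ^ b - 1 : ℕ) : ℤ) % 2 ^ b := by
    rw [Nat.cast_sub (by omega)]
    push_cast
    rw [show (dig (2 ^ b) (bval z) j : ℤ) + (dig 3 i j : ℤ) + 2 ^ b - 1 =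
      (dig (2 ^ b) (bval z) j : ℤ) + ((dig 3 i j : ℤ) - 1) + 2 ^ b by ring, Int.add_emod_right]
  change _ = (((dig (2 ^ b) (bval z) j : ℤ) + ((dig 3 i j : ℤ) - 1)) % 2 ^ b).toNat
  rw [h2]
  norm_cast

theorem cone_sub {D : ℕ} [NeZero D] (A : CA D) (N : Net) (hN : IsCA A N) (n b : ℕ) :
    ∀ (k t : ℕ) (z : List Bool), z.length = D * b →
    N.cone n (List.replicate (D * b) false) k t z ⊆ (nbr D b z) '' (box D k : Set (Fin D → ℤ)) := by
  intro k
  induction k with
  | zero =>
    intro t z hz u hu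
    have hu' : u = z := hu
    refine ⟨0, ?_, by rw [hu', nbr_zero D b z hz]⟩
    simp only [box, Finset.mem_coe, Fintype.mem_piFinset, Finset.mem_Icc, Pi.zero_apply]
    intro j
    simp
  | succ k ih =>
    intro t z hz u hu
    obtain ⟨i, hi, hu⟩ := hu
    obtain ⟨e, he, hze⟩ : ∃ e : Fin D → ℤ, (∀ j, -1 ≤ e j ∧ e j ≤ 1) ∧
        N.inp n (List.replicate (D * b) false) (t - 1) z i = nbr D b z e := by
      rw [Net.inp]
      split_ifs with h
      · refine ⟨fun j => (dig 3 i j : ℤ) - 1, fun j => ?_, ?_⟩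
        · have : dig 3 i j < 3 := Nat.mod_lt _ (by norm_num)
          simp only
          omega
        · rw [hN.nb, anb_eq]
      · exact ⟨0, fun j => by simp, (nbr_zero D b z hz).symm⟩
    rw [hze] at hu
    obtain ⟨f, hf, hfu⟩ := ih (t - 1) _ (length_nbr D b z e) hu
    refine ⟨e + f, ?_, by rw [← nbr_nbr, hfu]⟩
    simp only [box, Finset.mem_coe, Fintype.mem_piFinset, Finset.mem_Icc] at hf ⊢
    intro j
    have h1 := he j
    have h2 := hf j
    rw [Pi.add_apply]
    push_cast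
    omega

/-- ACONE. -/
theorem acone : ACONE_stmt := by
  intro D _ A N hN n b k t z hz
  refine (Set.ncard_le_ncard (cone_sub A N hN n b k t z hz)
    ((Finset.finite_toSet _).image _)).trans ?_
  refine (Set.ncard_image_le (Finset.finite_toSet _)).trans ?_
  rw [Set.ncard_coe_finset, card_box]

end Pool.Agent.Helper33.NW
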